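import Pool.Agent.L7h16.KA.Walk

/-!
# The Kloosterman angles at `s` consecutive primes: all boxes, with square-root error against the finite-field model, and
all patterns of signs, for almost all integers whose digits label walks in a graph

The definitions for the Kloosterman sums (`angle`, `boxCount`, `proportion`, `boxModel`, `signCount`) are those of the starting
file `NonIntegralOrderValues`. From Mathlib: `Nat.nth Nat.Prime k`: the prime with the index `k`, starting with `k = 0`;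
`Set.OrdConnected`: intervals.

Method: the exponential sums over the walks, at the fractions whose denominators are prime to the small primes, are bounded
with the iterates of the adjacency operator of the graph (library `N625.GW`); in every block of `log M / log b + 1` places
there is one at which a fraction with the denominator `M` gives a gain. So the integers are uniformly distributed in the
residue classes modulo all `M ≤ exp (k ^ (1 / 2))` which are prime to the small primes, up to a factor `exp (- c k ^ (1 / 2))`.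
The residues modulo the powers of the small primes are made uniform by a product with a cyclic group. The high moments and
the passage to all boxes are from the starting files (`Pool.Agent.N384.MQ.consecutive3`).
-/

set_option autoImplicit false

namespace Pool.Agent.Results.MP_6ea630_nt.GraphWalks

open Finset Filter
open scoped Polynomial
open Pool.Agent.Results.MP_6ea630_nt.NonIntegralOrderValues (boxCount boxModel signCount)

/-- The digits `a < b` act on the set `X` of the vertices: an edge with the label `a` leads from `x` to `y` if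
`δ x a = some y` (at most one edge with the label `a` starts at `x`). The number of the edges from `x` to `y` equals the
number of the edges from `y` to `x`, and at least two edges start at every vertex. The graph may be infinite. -/
structure Graph {X : Type} (b : ℕ) (δ : X → ℕ → Option X) : Prop where
  symm : ∀ x y : X, {a : ℕ | a < b ∧ δ x a = some y}.ncard = {a : ℕ | a < b ∧ δ y a = some x}.ncard
  two : ∀ x : X, ∃ a a' : ℕ, a < a' ∧ a' < b ∧ (δ x a).isSome ∧ (δ x a').isSome

open Classical in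
/-- The integers `v < b ^ k` whose `k` digits in base `b`, from the most significant to the least significant one (the
digit number `i`, `0 ≤ i < k`, from the left is `v / b ^ (k - 1 - i) % b`), are the labels of a walk from `x` to `y`. -/
noncomputable def walks {X : Type} (b : ℕ) (δ : X → ℕ → Option X) (k : ℕ) (x y : X) : Finset ℕ :=
  (range (b ^ k)).filter fun v =>
    ((List.range k).map fun i => v / b ^ (k - 1 - i) % b).foldl (fun s a => s.bind fun z => δ z a) (some x) = some y

/-- For all `K ≤ exp (c k ^ (1 / 2))` and all products of `s` intervals the number of the `j < K` for which the angles of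
`S(a, 1; p)` at the `s` primes with the indices `j, ..., j + s - 1` are in the intervals, for `a = P(v)`, differs from the
expected number by at most `C K ^ (1 / 2 + ε) k ^ (1 / 4)`. -/
def Boxes (s : ℕ) (ε c C : ℝ) (k : ℕ) (P : ℤ[X]) (v : ℕ) : Prop :=
  ∀ K : ℕ, (K : ℝ) ≤ Real.exp (c * √(k : ℝ)) → ∀ I : Fin s → Set ℝ, (∀ i, (I i).OrdConnected) →
    |(boxCount I K (P.eval (v : ℤ)) : ℝ) - boxModel P I K| ≤ C * (K : ℝ) ^ (1 / 2 + ε) * (k : ℝ) ^ (1 / 4 : ℝ)

/-- For all `k ≤ K ≤ exp (c k ^ (1 / 2))` every pattern of `s` signs occurs for the sums `S(a, 1; p)` at the `s` primes with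
the indices `j, ..., j + s - 1`, with sums of absolute value greater than `η p ^ (1 / 2)`, for at least
`((1 / 4 - η) ^ s - ε) K` of the `j < K`. -/
def Signs (s : ℕ) (η ε c : ℝ) (k : ℕ) (a : ℤ) : Prop :=
  ∀ K : ℕ, k ≤ K → (K : ℝ) ≤ Real.exp (c * √(k : ℝ)) → ∀ σ : Fin s → ℝ, (∀ i, σ i = 1 ∨ σ i = -1) →
    ((1 / 4 - η) ^ s - ε) * K ≤ signCount s σ η K a

open Pool.Agent.L7h16.KA in
open Classical in
lemma core (b : ℕ) (X : Type) (δ : X → ℕ → Option X) (hG : Graph b δ) (x : X) (ρ : ℝ) (hρ : 0 < ρ)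
    (hR : ∀ n : ℕ, ((walks b δ (2 * n) x x).card : ℝ) ≤ ρ ^ (2 * n)) (D s : ℕ) (hs : 1 ≤ s) (ε : ℝ) (hε : 0 < ε) :
    ∃ θ C : ℝ, 0 < θ ∧ θ ≤ 1 ∧ 1 ≤ C ∧ ∀ (P : ℤ[X]) (k : ℕ), 1 ≤ k → ∀ y : X, ρ ^ k / (k : ℝ) ^ D ≤ (walks b δ k x y).card →
      (((walks b δ k x y).filter fun v => ¬ GoodB s ε C θ P (⌊Real.exp √(k : ℝ)⌋₊ : ℕ) (v : ℕ)).card : ℝ) ≤
        C * Real.exp (-(θ / 2 * √(k : ℝ))) * (walks b δ k x y).card := by
  have hG' : Pool.Agent.N625.GW.Graph b δ := ⟨hG.symm, hG.two⟩
  obtain ⟨μ, hμ0, hμ1, hw⟩ := walk_sum hG' x ρ hρ hR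
  have hb := Pool.Agent.N625.GW.two_le hG' x
  have hb2 : (2 : ℝ) ≤ b := by exact_mod_cast hb
  obtain ⟨lm, hlm⟩ : ∃ lm : ℝ, lm = -Real.log μ := ⟨_, rfl⟩
  have hlm0 : 0 < lm := by
    rw [hlm]
    linarith [Real.log_neg hμ0 hμ1]
  obtain ⟨C₀, hC₀⟩ : ∃ C₀ : ℝ, C₀ = (μ⁻¹) ^ 2 * (((2 * D).factorial : ℕ) * (6 / lm) ^ (2 * D)) + 1 := ⟨_, rfl⟩
  have hC₀1 : 1 ≤ C₀ := by
    have : 0 ≤ (μ⁻¹) ^ 2 * (((2 * D).factorial : ℕ) * (6 / lm) ^ (2 * D)) := by positivity
    linarith
  obtain ⟨θ, C, h1, h2, h3, H⟩ := kl_boxes (b * (b ^ 2).factorial) (Nat.mul_pos (by omega) (Nat.factorial_pos _)) 1 (min 1 (lm / 6)) C₀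
    one_pos le_rfl (lt_min one_pos (by positivity)) (min_le_left _ _) hC₀1 s hs ε hε
  refine ⟨θ, C, h1, h2, h3, fun P k hk y hy => ?_⟩
  have hk1 : (1 : ℝ) ≤ k := by exact_mod_cast hk
  have hsk : 1 ≤ √(k : ℝ) := Real.one_le_sqrt.2 hk1
  have hsk2 : √(k : ℝ) * √(k : ℝ) = k := Real.mul_self_sqrt (by linarith)
  obtain ⟨r, hr⟩ : ∃ r, r = √(k : ℝ) := ⟨_, rfl⟩
  rw [← hr] at hsk hsk2 ⊢
  obtain ⟨N, hN⟩ : ∃ N, N = ⌊Real.exp r⌋₊ := ⟨_, rfl⟩
  rw [← hN]
  have hNle : (N : ℝ) ≤ Real.exp r := by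
    rw [hN]
    exact Nat.floor_le (Real.exp_pos _).le
  have hNge : Real.exp (r / 2) ≤ N := by
    have e1 : Real.exp r < N + 1 := by
      rw [hN]
      exact Nat.lt_floor_add_one _
    have e2 : Real.exp r = Real.exp (r / 2) * Real.exp (r / 2) := by
      rw [← Real.exp_add]
      congr 1
      ring
    have e3 : (1.64 : ℝ) ≤ Real.exp (r / 2) := by
      have h4 : (1.64 : ℝ) ^ 2 ≤ Real.exp 1 := by
        have := Real.exp_one_gt_d9
        norm_num
        linarith
      have h5 : Real.exp 1 ≤ Real.exp (r / 2) ^ 2 := by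
        rw [pow_two, ← e2]
        exact Real.exp_le_exp.2 hsk
      exact abs_le_of_sq_le_sq' (h4.trans h5) (Real.exp_pos _).le |>.2
    nlinarith
  have hN0 : (0 : ℝ) < N := lt_of_lt_of_le (Real.exp_pos _) hNge
  have hN1 : 1 ≤ N := by exact_mod_cast hN0
  obtain ⟨W, hW⟩ : ∃ W : ℝ, W = ((walks b δ k x y).card : ℝ) := ⟨_, rfl⟩
  have hkD : 0 < (k : ℝ) ^ D := by positivity
  rw [← hW, div_le_iff₀ hkD] at hy
  have hWpos : 0 < W := by
    by_contra hcon
    push Not at hcon
    have h4 : W = 0 := le_antisymm hcon (by rw [hW]; exact Nat.cast_nonneg _)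
    rw [h4, zero_mul] at hy
    have : 0 < ρ ^ k := by positivity
    linarith
  have hpos : 0 < (walks b δ k x y).card := by
    rw [hW] at hWpos
    exact_mod_cast hWpos
  obtain ⟨T, hT⟩ : ∃ T, T = ⌈r / Real.log b⌉₊ := ⟨_, rfl⟩
  have hlb : 1 / 2 ≤ Real.log b := by
    have h4 := Real.log_two_gt_d9
    have h5 := Real.log_le_log (by norm_num) hb2
    linarith
  have hlb0 : 0 < Real.log b := by linarith
  have hT1 : 1 ≤ T := by
    rw [hT]
    exact Nat.one_le_ceil_iff.2 (by positivity)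
  have hTle : (T : ℝ) ≤ 3 * r := by
    have h4 : (T : ℝ) < r / Real.log b + 1 := by
      rw [hT]
      exact Nat.ceil_lt_add_one (by positivity)
    have h5 : r / Real.log b ≤ 2 * r := by
      rw [div_le_iff₀ hlb0]
      nlinarith
    linarith
  have hTge : r ≤ T * Real.log b := by
    have h4 : r / Real.log b ≤ T := by
      rw [hT]
      exact Nat.le_ceil _
    rwa [div_le_iff₀ hlb0] at h4
  have key : ∀ M : ℕ, 1 ≤ M → M.Coprime (b * (b ^ 2).factorial) → (M : ℝ) ≤ (N : ℝ) ^ (1 : ℝ) → ∀ a ∈ Ico 1 M,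
      ‖∑ v ∈ walks b δ k x y, Pool.Agent.H807R2.Dav.ee ((a : ℝ) * (v : ℝ) / M)‖ ≤
        C₀ * (N : ℝ) ^ (-(min 1 (lm / 6))) * ((walks b δ k x y).card : ℝ) := by
    intro M hM hcop hMN a ha
    have hMb : M ≤ b ^ T := by
      have h4 : (M : ℝ) ≤ (b : ℝ) ^ T := by
        rw [Real.rpow_one] at hMN
        calc (M : ℝ) ≤ Real.exp r := hMN.trans hNle
          _ ≤ Real.exp (T * Real.log b) := Real.exp_le_exp.2 hTge
          _ = (b : ℝ) ^ T := by rw [← Real.log_pow, Real.exp_log (by positivity)]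
      exact_mod_cast h4
    refine (hw k y hpos M T hM hT1 hMb hcop a ha).trans ?_
    rw [← hW]
    -- the number of the places
    have hq : k / (3 * r) - 2 ≤ (((k - 1) / T : ℕ) : ℝ) := by
      have h4 : ((k - 1 : ℕ) : ℝ) < ((((k - 1) / T : ℕ) : ℝ) + 1) * T := by
        have := Nat.lt_mul_div_succ (k - 1) (by omega : 0 < T)
        have h5 : ((k - 1 : ℕ) : ℝ) < ((T * ((k - 1) / T + 1) : ℕ) : ℝ) := by exact_mod_cast this
        push_cast at h5
        linarith
      rw [Nat.cast_sub hk, Nat.cast_one] at h4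
      have hT0 : (1 : ℝ) ≤ T := by exact_mod_cast hT1
      have h5 : (k : ℝ) / T ≤ (((k - 1) / T : ℕ) : ℝ) + 2 := by
        rw [div_le_iff₀ (by linarith)]
        linarith
      have h6 : (k : ℝ) / (3 * r) ≤ k / T := div_le_div_of_nonneg_left (by linarith) (by linarith) hTle
      linarith
    have hkr : (k : ℝ) / (3 * r) = r / 3 := by
      rw [← hsk2]
      field_simp
    rw [hkr] at hq
    have hμp : μ ^ ((k - 1) / T) ≤ (μ⁻¹) ^ 2 * Real.exp (-(lm * r / 3)) := by
      calc μ ^ ((k - 1) / T) = Real.exp (-(lm * (((k - 1) / T : ℕ) : ℝ))) := by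
            rw [hlm, neg_mul, neg_neg, mul_comm, ← Real.log_pow, Real.exp_log (by positivity)]
        _ ≤ Real.exp (-(lm * (r / 3 - 2))) := by
            apply Real.exp_le_exp.2
            have := mul_le_mul_of_nonneg_left hq hlm0.le
            linarith
        _ = (μ⁻¹) ^ 2 * Real.exp (-(lm * r / 3)) := by
            have h4 : (μ⁻¹) ^ 2 = Real.exp (2 * lm) := by
              rw [hlm, mul_neg, Real.exp_neg, two_mul, Real.exp_add, Real.exp_log hμ0]
              field_simp
            rw [h4, ← Real.exp_add]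
            congr 1
            ring
    have hkD2 : (k : ℝ) ^ D ≤ (((2 * D).factorial : ℕ) * (6 / lm) ^ (2 * D)) * Real.exp (lm * r / 6) := by
      have h4 := Real.pow_div_factorial_le_exp (lm * r / 6) (by positivity) (2 * D)
      rw [div_le_iff₀ (by exact_mod_cast Nat.factorial_pos _)] at h4
      have h5 : (k : ℝ) ^ D = (6 / lm) ^ (2 * D) * (lm * r / 6) ^ (2 * D) := by
        rw [← mul_pow]
        have : 6 / lm * (lm * r / 6) = r := by field_simp
        rw [this, pow_mul, pow_two, hsk2]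
      rw [h5]
      calc (6 / lm) ^ (2 * D) * (lm * r / 6) ^ (2 * D) ≤ (6 / lm) ^ (2 * D) * (Real.exp (lm * r / 6) * ((2 * D).factorial : ℕ)) :=
            mul_le_mul_of_nonneg_left h4 (by positivity)
        _ = _ := by ring
    have hσ : Real.exp (-(lm * r / 6)) ≤ (N : ℝ) ^ (-(min 1 (lm / 6))) := by
      calc Real.exp (-(lm * r / 6)) ≤ Real.exp (-(min 1 (lm / 6) * r)) := by
            apply Real.exp_le_exp.2
            have := mul_le_mul_of_nonneg_right (min_le_right 1 (lm / 6)) (by linarith : 0 ≤ r)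
            linarith
        _ = (Real.exp r) ^ (-(min 1 (lm / 6))) := by
            rw [← Real.exp_mul]
            congr 1
            ring
        _ ≤ _ := Real.rpow_le_rpow_of_nonpos hN0 hNle (by
            have : 0 < min 1 (lm / 6) := lt_min one_pos (by positivity)
            linarith)
    have hexp2 : Real.exp (lm * r / 6) * Real.exp (-(lm * r / 3)) = Real.exp (-(lm * r / 6)) := by
      rw [← Real.exp_add]
      congr 1
      ring
    calc ρ ^ k * μ ^ ((k - 1) / T) ≤ (W * (k : ℝ) ^ D) * ((μ⁻¹) ^ 2 * Real.exp (-(lm * r / 3))) :=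
          mul_le_mul hy hμp (by positivity) (by positivity)
      _ ≤ (W * ((((2 * D).factorial : ℕ) * (6 / lm) ^ (2 * D)) * Real.exp (lm * r / 6))) * ((μ⁻¹) ^ 2 * Real.exp (-(lm * r / 3))) := by
          apply mul_le_mul_of_nonneg_right _ (by positivity)
          exact mul_le_mul_of_nonneg_left hkD2 hWpos.le
      _ = W * (((μ⁻¹) ^ 2 * (((2 * D).factorial : ℕ) * (6 / lm) ^ (2 * D))) * (Real.exp (lm * r / 6) * Real.exp (-(lm * r / 3)))) := by ring
      _ ≤ W * (C₀ * (N : ℝ) ^ (-(min 1 (lm / 6)))) := by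
          rw [hexp2]
          apply mul_le_mul_of_nonneg_left _ hWpos.le
          apply mul_le_mul _ hσ (Real.exp_pos _).le (by linarith)
          rw [hC₀]
          linarith
      _ = _ := by ring
  have hfin := H P ℕ (walks b δ k x y) (fun v => v) N hN1 key
  refine hfin.trans ?_
  apply mul_le_mul_of_nonneg_right _ (Nat.cast_nonneg _)
  apply mul_le_mul_of_nonneg_left _ (by linarith)
  calc (N : ℝ) ^ (-θ) ≤ (Real.exp (r / 2)) ^ (-θ) := Real.rpow_le_rpow_of_nonpos (Real.exp_pos _) hNge (by linarith)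
    _ = Real.exp (-(θ / 2 * r)) := by
        rw [← Real.exp_mul]
        congr 1
        ring

lemma floor_exp (r : ℝ) (hr : 1 ≤ r) : Real.exp (r / 2) ≤ (⌊Real.exp r⌋₊ : ℕ) ∧ ((⌊Real.exp r⌋₊ : ℕ) : ℝ) ≤ Real.exp r := by
  refine ⟨?_, Nat.floor_le (Real.exp_pos _).le⟩
  have e1 : Real.exp r < (⌊Real.exp r⌋₊ : ℕ) + 1 := Nat.lt_floor_add_one _
  have e2 : Real.exp r = Real.exp (r / 2) * Real.exp (r / 2) := by
    rw [← Real.exp_add]
    congr 1
    ring
  have e3 : (1.64 : ℝ) ≤ Real.exp (r / 2) := by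
    have h4 : (1.64 : ℝ) ^ 2 ≤ Real.exp 1 := by
      have := Real.exp_one_gt_d9
      norm_num
      linarith
    have h5 : Real.exp 1 ≤ Real.exp (r / 2) ^ 2 := by
      rw [pow_two, ← e2]
      exact Real.exp_le_exp.2 hr
    exact abs_le_of_sq_le_sq' (h4.trans h5) (Real.exp_pos _).le |>.2
  nlinarith

open Pool.Agent.L7h16.KA in
lemma boxes_of (s : ℕ) (ε θ C : ℝ) (hθ : 0 < θ) (hC : 1 ≤ C) (P : ℤ[X]) (k : ℕ) (hk : 1 ≤ k) (v : ℕ)
    (h : GoodB s ε C θ P (⌊Real.exp √(k : ℝ)⌋₊ : ℕ) (v : ℕ)) : Boxes s ε (θ / 2) (2 * C) k P v := by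
  have hk1 : (1 : ℝ) ≤ k := by exact_mod_cast hk
  have hsk : 1 ≤ √(k : ℝ) := Real.one_le_sqrt.2 hk1
  obtain ⟨f1, f2⟩ := floor_exp √(k : ℝ) hsk
  intro K hK I hI
  have hKN : (K : ℝ) ≤ ((⌊Real.exp √(k : ℝ)⌋₊ : ℕ) : ℝ) ^ θ := by
    refine hK.trans ?_
    calc Real.exp (θ / 2 * √(k : ℝ)) = (Real.exp (√(k : ℝ) / 2)) ^ θ := by
          rw [← Real.exp_mul]
          congr 1
          ring
      _ ≤ _ := Real.rpow_le_rpow (Real.exp_pos _).le f1 hθ.le
  refine (h K hKN I hI).trans ?_
  have h1 : √(1 + Real.log (⌊Real.exp √(k : ℝ)⌋₊ : ℕ)) ≤ 2 * (k : ℝ) ^ (1 / 4 : ℝ) := by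
    have h2 : Real.log (⌊Real.exp √(k : ℝ)⌋₊ : ℕ) ≤ √(k : ℝ) := by
      have := Real.log_le_log (lt_of_lt_of_le (Real.exp_pos _) f1) f2
      rwa [Real.log_exp] at this
    have h3 : (k : ℝ) ^ (1 / 4 : ℝ) = √√(k : ℝ) := by
      rw [Real.sqrt_eq_rpow, Real.sqrt_eq_rpow, ← Real.rpow_mul (by linarith)]
      norm_num
    rw [h3]
    calc √(1 + Real.log (⌊Real.exp √(k : ℝ)⌋₊ : ℕ)) ≤ √(2 ^ 2 * √(k : ℝ)) := Real.sqrt_le_sqrt (by linarith)
      _ = 2 * √√(k : ℝ) := by rw [Real.sqrt_mul (by norm_num), Real.sqrt_sq (by norm_num)]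
  calc C * ((K : ℝ) ^ (1 / 2 + ε) * √(1 + Real.log (⌊Real.exp √(k : ℝ)⌋₊ : ℕ))) ≤
        C * ((K : ℝ) ^ (1 / 2 + ε) * (2 * (k : ℝ) ^ (1 / 4 : ℝ))) := by
        apply mul_le_mul_of_nonneg_left _ (by linarith)
        exact mul_le_mul_of_nonneg_left h1 (by positivity)
    _ = _ := by ring

open Classical in
/-- Let `δ` be a graph whose edges are labelled with the digits in base `b`, let `x` be a vertex, and let `ρ > 0` be such
that there are at most `ρ ^ (2 n)` closed walks of the length `2 n` at `x`, for all `n`. Let `D` and `s ≥ 1` be fixed. In the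
following `k` is the number of the digits, and `y` is a vertex such that the number of the walks of the length `k` from `x` to
`y` is at least `ρ ^ k / k ^ D`.

**(1)** For every `ε > 0` there are `c, C > 0` such that for all polynomials `P ∈ ℤ[T]`, all `k ≥ 1` and all `y`, all the
integers `v` whose `k` digits are the labels of a walk from `x` to `y`, up to a proportion of at most `C exp (- c k ^ (1 / 2))`
of them, have the following property with `a = P(v)`: for all `K ≤ exp (c k ^ (1 / 2))` and all products of `s` intervals the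
number of the `j < K` for which the angles of `S(a, 1; p)` at the `s` consecutive primes with the indices `j, ..., j + s - 1`
are in the intervals differs from the expected number (the sum over `j < K` of the product of the proportions, over the
residues `t` modulo the primes, for the angles of `S(P(t), 1; p)`) by at most `C K ^ (1 / 2 + ε) k ^ (1 / 4)`.

**(2)** There is `c > 0` such that for `0 ≤ η ≤ 1 / 4`, `ε > 0`, `κ ≠ 0`, all large `k`, all `y` and all integers `c₀`, all
the integers `v` whose `k` digits are the labels of a walk from `x` to `y`, up to a proportion of at most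
`exp (- c k ^ (1 / 2))` of them, have the following property with `a = c₀ + κ v`: for all `k ≤ K ≤ exp (c k ^ (1 / 2))` every
pattern of `s` signs occurs for the sums `S(a, 1; p)` at `s` consecutive primes, with sums of absolute value greater than
`η p ^ (1 / 2)`, for at least `((1 / 4 - η) ^ s - ε) K` of the indices `j < K`.

(For a group of polynomial growth, a free group, or any group with the property of rapid decay, there are at least
`ρ ^ k / k ^ D` closed walks of every even length `k` in the Cayley graph, where `ρ` is its spectral radius.) -/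
theorem result (b : ℕ) (X : Type) (δ : X → ℕ → Option X) (hG : Graph b δ) (x : X) (ρ : ℝ) (hρ : 0 < ρ)
    (hR : ∀ n : ℕ, ((walks b δ (2 * n) x x).card : ℝ) ≤ ρ ^ (2 * n)) (D s : ℕ) (hs : 1 ≤ s) :
    (∀ ε : ℝ, 0 < ε → ∃ c C : ℝ, 0 < c ∧ 0 < C ∧ ∀ (P : ℤ[X]) (k : ℕ), 1 ≤ k → ∀ y : X,
      ρ ^ k / (k : ℝ) ^ D ≤ (walks b δ k x y).card →
        (((walks b δ k x y).filter fun v => ¬ Boxes s ε c C k P v).card : ℝ) ≤
          C * Real.exp (-(c * √(k : ℝ))) * (walks b δ k x y).card) ∧
    (∃ c : ℝ, 0 < c ∧ ∀ η ε : ℝ, 0 ≤ η → η ≤ 1 / 4 → 0 < ε → ∀ κ : ℤ, κ ≠ 0 → ∃ k₀ : ℕ, ∀ k : ℕ, k₀ ≤ k → ∀ y : X,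
      ρ ^ k / (k : ℝ) ^ D ≤ (walks b δ k x y).card → ∀ c₀ : ℤ,
        (((walks b δ k x y).filter fun v => ¬ Signs s η ε c k (c₀ + κ * (v : ℕ))).card : ℝ) ≤
          Real.exp (-(c * √(k : ℝ))) * (walks b δ k x y).card) := by
  constructor
  · intro ε hε
    obtain ⟨θ, C, h1, h2, h3, H⟩ := core b X δ hG x ρ hρ hR D s hs ε hε
    refine ⟨θ / 2, 2 * C, by positivity, by linarith, fun P k hk y hy => ?_⟩
    refine le_trans (Nat.cast_le.2 (card_le_card fun v hv => ?_)) ((H P k hk y hy).trans ?_)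
    · rw [mem_filter] at hv ⊢
      exact ⟨hv.1, fun h => hv.2 (boxes_of s ε θ C h1 h3 P k hk v h)⟩
    · apply mul_le_mul_of_nonneg_right _ (Nat.cast_nonneg _)
      apply mul_le_mul_of_nonneg_right _ (Real.exp_pos _).le
      linarith
  · obtain ⟨θ, C, h1, h2, h3, H⟩ := core b X δ hG x ρ hρ hR D s hs (1 / 8) (by norm_num)
    refine ⟨θ / 4, by positivity, fun η ε hη hη1 hε κ hκ => ?_⟩
    obtain ⟨N₀, hN₀⟩ := Pool.Agent.L7h16.KA.signs_of_boxes s hs θ C h3 η ε hη hη1 hε κ hκ
    have t1 : Tendsto (fun k : ℕ => Real.exp (θ / 4 * √(k : ℝ))) atTop atTop := by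
      apply Real.tendsto_exp_atTop.comp
      apply Tendsto.const_mul_atTop (by positivity)
      exact Real.tendsto_sqrt_atTop.comp tendsto_natCast_atTop_atTop
    have t2 : Tendsto (fun k : ℕ => Real.exp (1 / 2 * √(k : ℝ))) atTop atTop := by
      apply Real.tendsto_exp_atTop.comp
      apply Tendsto.const_mul_atTop (by norm_num)
      exact Real.tendsto_sqrt_atTop.comp tendsto_natCast_atTop_atTop
    obtain ⟨k₀, hk₀⟩ := eventually_atTop.1 ((t1.eventually_ge_atTop C).and (t2.eventually_ge_atTop N₀))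
    refine ⟨k₀ + 1, fun k hk y hy c₀ => ?_⟩
    obtain ⟨q1, q2⟩ := hk₀ k (by omega)
    have hk1 : (1 : ℝ) ≤ k := by exact_mod_cast (by omega : 1 ≤ k)
    have hsk : 1 ≤ √(k : ℝ) := Real.one_le_sqrt.2 hk1
    obtain ⟨f1, f2⟩ := floor_exp √(k : ℝ) hsk
    have f1' : Real.exp (1 / 2 * √(k : ℝ)) ≤ (⌊Real.exp √(k : ℝ)⌋₊ : ℕ) := by
      refine le_trans (le_of_eq ?_) f1
      congr 1
      ring
    refine le_trans (Nat.cast_le.2 (card_le_card fun v hv => ?_)) ((H (Polynomial.C c₀ + Polynomial.C κ * Polynomial.X) k (by omega) y hy).trans ?_)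
    · rw [mem_filter] at hv ⊢
      refine ⟨hv.1, fun h => hv.2 ?_⟩
      have h4 := hN₀ (⌊Real.exp √(k : ℝ)⌋₊ : ℕ) (q2.trans f1') c₀ (v : ℕ) h
      intro K hK1 hK2 σ hσ
      apply h4 K _ _ σ hσ
      · have h5 : Real.log (⌊Real.exp √(k : ℝ)⌋₊ : ℕ) ≤ √(k : ℝ) := by
          have := Real.log_le_log (lt_of_lt_of_le (Real.exp_pos _) f1) f2
          rwa [Real.log_exp] at this
        have h6 : 0 ≤ Real.log (⌊Real.exp √(k : ℝ)⌋₊ : ℕ) := Real.log_natCast_nonneg _
        calc Real.log (⌊Real.exp √(k : ℝ)⌋₊ : ℕ) ^ 2 ≤ √(k : ℝ) ^ 2 := pow_le_pow_left₀ h6 h5 2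
          _ = k := Real.sq_sqrt (by linarith)
          _ ≤ K := by exact_mod_cast hK1
      · refine hK2.trans ?_
        calc Real.exp (θ / 4 * √(k : ℝ)) ≤ Real.exp (θ / 2 * √(k : ℝ)) := by
              apply Real.exp_le_exp.2
              nlinarith
          _ = (Real.exp (√(k : ℝ) / 2)) ^ θ := by
              rw [← Real.exp_mul]
              congr 1
              ring
          _ ≤ _ := Real.rpow_le_rpow (Real.exp_pos _).le f1 h1.le
    · apply mul_le_mul_of_nonneg_right _ (Nat.cast_nonneg _)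
      calc C * Real.exp (-(θ / 2 * √(k : ℝ))) ≤ Real.exp (θ / 4 * √(k : ℝ)) * Real.exp (-(θ / 2 * √(k : ℝ))) :=
            mul_le_mul_of_nonneg_right q1 (Real.exp_pos _).le
        _ = _ := by
            rw [← Real.exp_add]
            congr 1
            ring

end Pool.Agent.Results.MP_6ea630_nt.GraphWalks
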