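import Pool.Agent.L7h16.KA.Sgn
import Pool.Agent.L7h16.KA.AA

/-!
# The Kloosterman angles at `s` consecutive primes along random and metric sequences

The integers `n` are good for `s`, `ε`, `P`, if the angles of the Kloosterman sums `S(P(n), 1; p)` at `s` consecutive primes
are distributed in all boxes as expected from the finite fields, with square-root error `C K ^ (1 / 2 + ε)`, for all
`K ≤ |n| ^ θ`; and if all patterns of `s` signs occur for the sums `S(c₀ + l n, 1; p)` (`Boxes`, `Signs` below). The following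
holds for ALL `s`, `ε`, polynomials `P`, and `c₀`, `l` at once, outside of ONE event (set) of probability (measure) zero.

* For random integers `X_n`, of ANY dependence, with `P (X_n = k) ≤ C / (|k| + 1)`, almost surely all but finitely many `X_n`
  are good, if `|X_n| ≥ exp (n ^ δ)` outside of events with a convergent sum of probabilities; all but `M / (log M) ^ U` of
  the `X_n`, `n < M`, are good for all `U`, if `∑_{n < M} P (|X_n| < M ^ δ) ≤ C M ^ (1 - δ)`;
* for all linear forms `a_n` in `d` variables with norms at least `exp (n ^ δ)`, for almost all vectors `α`, all but finitely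
  many `⌊a_n (α)⌋` are good; the same for `⌊h_n (x)⌋`, for almost all `x` in an interval on which `|h_n'| ≥ c |h_n|` and
  `|h_n| ≥ exp (n ^ δ)`; the same for `⌊ξ x ^ n⌋`, for all `ξ ≠ 0` and almost all `x > 1`;
* for ANY sequence of real numbers `a_n` with mutual distances at least `δ > 0`, in any order, and almost all real `α` all but
  `M / (log M) ^ U` of the `⌊a_n α⌋`, `n < M`, are good, for all `U`.

The definitions for the Kloosterman sums (`angle`, `boxCount`, `proportion`, `boxModel`, `signCount`) are those of the starting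
file `NonIntegralOrderValues`; `RandomAndMetric` is the structure of `Pool.Agent.N918.MS.Seq` for the statements above.
-/

set_option autoImplicit false

namespace Pool.Agent.Results.MP_6ea630_nt.MetricSequences

open Finset Filter
open scoped Polynomial
open Pool.Agent.N918.MS (AlmostAlways RandomAndMetric randomAndMetric)
open Pool.Agent.Results.MP_6ea630_nt.NonIntegralOrderValues (boxCount boxModel signCount)

/-- For all `K ≤ |n| ^ θ` and all products of `s` intervals the number of the `k < K` for which the angles of `S(a, 1; p)` at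
the `s` primes with the indices `k, ..., k + s - 1` are in the intervals, for `a = P(n)`, differs from the expected number by
at most `C K ^ (1 / 2 + ε) (1 + log |n|) ^ (1 / 2)`. -/
def Boxes (s : ℕ) (ε θ C : ℝ) (P : ℤ[X]) (n : ℤ) : Prop :=
  ∀ K : ℕ, (K : ℝ) ≤ |(n : ℝ)| ^ θ → ∀ I : Fin s → Set ℝ, (∀ i, (I i).OrdConnected) →
    |(boxCount I K (P.eval n) : ℝ) - boxModel P I K| ≤ C * ((K : ℝ) ^ (1 / 2 + ε) * √(1 + Real.log |(n : ℝ)|))

/-- For all `(log |n|) ^ 2 ≤ K ≤ |n| ^ θ` every pattern of `s` signs occurs for the sums `S(a, 1; p)` at the `s` primes with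
the indices `k, ..., k + s - 1`, with sums of absolute value greater than `η p ^ (1 / 2)`, for at least
`((1 / 4 - η) ^ s - ε) K` of the `k < K`. -/
def Signs (s : ℕ) (η ε θ : ℝ) (n a : ℤ) : Prop :=
  ∀ K : ℕ, Real.log |(n : ℝ)| ^ 2 ≤ K → (K : ℝ) ≤ |(n : ℝ)| ^ θ → ∀ σ : Fin s → ℝ, (∀ i, σ i = 1 ∨ σ i = -1) →
    ((1 / 4 - η) ^ s - ε) * K ≤ signCount s σ η K a

/-- `n` is good for the boxes, for `s = x.1 + 1`, `ε = 1 / (x.2.1 + 1)`, `P = x.2.2`; `θ` and `C` depend on `s`, `ε` only. -/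
def GoodBoxes (θ C : ℕ → ℕ → ℝ) (x : ℕ × ℕ × ℤ[X]) (n : ℤ) : Prop :=
  Boxes (x.1 + 1) (1 / ((x.2.1 : ℝ) + 1)) (θ x.1 x.2.1) (C x.1 x.2.1) x.2.2 n

/-- `n` is good for the signs, for `s = x.1 + 1`, `ε = 1 / (x.2.1 + 1)`, `η = x.2.2.1`, `l = x.2.2.2.1`, `c₀ = x.2.2.2.2`, if
`0 ≤ η ≤ 1 / 4`, `l ≠ 0` and `|n| ≥ n₀(s, ε, η, l)`. -/
def GoodSigns (θ : ℕ → ℝ) (n₀ : ℕ → ℕ → ℚ → ℤ → ℝ) (x : ℕ × ℕ × ℚ × ℤ × ℤ) (n : ℤ) : Prop :=
  0 ≤ x.2.2.1 → x.2.2.1 ≤ 1 / 4 → x.2.2.2.1 ≠ 0 → n₀ x.1 x.2.1 x.2.2.1 x.2.2.2.1 ≤ |(n : ℝ)| →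
    Signs (x.1 + 1) x.2.2.1 (1 / ((x.2.1 : ℝ) + 1)) (θ x.1) n (x.2.2.2.2 + x.2.2.2.1 * n)

lemma countable_poly : Countable ℤ[X] := by
  rw [← Cardinal.mk_le_aleph0_iff]
  exact (Polynomial.cardinalMk_le_max).trans (max_le Cardinal.mk_le_aleph0 le_rfl)

/-- **The Kloosterman angles at consecutive primes along random and metric sequences.** There are positive exponents `θ(s, ε)`
and constants `C(s, ε)`, and positive exponents `θ'(s)` and bounds `n₀(s, ε, η, l)`, such that all the statements of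
`RandomAndMetric` hold for the properties `GoodBoxes` and `GoodSigns` (for all the indices `x` at once). -/
theorem result :
    (∃ θ C : ℕ → ℕ → ℝ, (∀ s j, 0 < θ s j ∧ θ s j ≤ 1 / 2 ∧ 0 < C s j) ∧ RandomAndMetric (GoodBoxes θ C)) ∧
    (∃ (θ : ℕ → ℝ) (n₀ : ℕ → ℕ → ℚ → ℤ → ℝ), (∀ s, 0 < θ s ∧ θ s ≤ 1 / 2) ∧ RandomAndMetric (GoodSigns θ n₀)) := by
  classical
  have := countable_poly
  constructor
  · choose θ C h1 h2 h3 H using fun (s j : ℕ) => Pool.Agent.L7h16.KA.all_int (s + 1) (by omega) (1 / ((j : ℝ) + 1)) (by positivity)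
    refine ⟨θ, C, fun s j => ⟨h1 s j, h2 s j, by linarith [h3 s j]⟩, randomAndMetric _ ?_⟩
    rintro ⟨s, j, P⟩
    refine Pool.Agent.L7h16.KA.almostAlways_of _ (2 * C s j) (θ s j) (h1 s j) (by linarith [h2 s j]) (by linarith [h3 s j]) ?_
    intro X hX
    exact le_trans (le_of_eq (by congr!)) (H s j P X hX)
  · choose θ C h1 h2 h3 H using fun (s : ℕ) => Pool.Agent.L7h16.KA.all_int (s + 1) (by omega) (1 / 8) (by norm_num)
    have hn : ∀ (s j : ℕ) (η : ℚ) (l : ℤ), ∃ n₀ : ℝ, 0 ≤ η → η ≤ 1 / 4 → l ≠ 0 → ∀ c₀ n : ℤ, n₀ ≤ |(n : ℝ)| →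
        Pool.Agent.L7h16.KA.Good (s + 1) (1 / 8) (θ s) (C s) (Polynomial.C c₀ + Polynomial.C l * Polynomial.X) n →
        Signs (s + 1) η (1 / ((j : ℝ) + 1)) (θ s) n (c₀ + l * n) := by
      intro s j η l
      by_cases hc : 0 ≤ η ∧ η ≤ 1 / 4 ∧ l ≠ 0
      · have e0 : (0 : ℝ) ≤ (η : ℝ) := by exact_mod_cast hc.1
        have e1 : (η : ℝ) ≤ 1 / 4 := by
          have := hc.2.1
          have h5 : ((η : ℚ) : ℝ) ≤ ((1 / 4 : ℚ) : ℝ) := by exact_mod_cast this
          push_cast at h5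
          exact h5
        obtain ⟨n₀, h⟩ := Pool.Agent.L7h16.KA.signs_of_good (s + 1) (by omega) (θ s) (C s) (h3 s) η (1 / ((j : ℝ) + 1)) e0 e1
          (by positivity) l hc.2.2
        exact ⟨n₀, fun _ _ _ => h⟩
      · refine ⟨0, fun a b c => absurd ⟨a, b, c⟩ hc⟩
    choose n₀ hn₀ using hn
    refine ⟨θ, n₀, fun s => ⟨h1 s, h2 s⟩, randomAndMetric _ ?_⟩
    rintro ⟨s, j, η, l, c₀⟩
    refine Pool.Agent.L7h16.KA.almostAlways_of _ (2 * C s) (θ s) (h1 s) (by linarith [h2 s]) (by linarith [h3 s]) ?_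
    intro X hX
    refine le_trans (Nat.cast_le.2 (card_le_card fun n hn => ?_)) (H s (Polynomial.C c₀ + Polynomial.C l * Polynomial.X) X hX)
    rw [mem_filter] at hn ⊢
    refine ⟨hn.1, fun hg => hn.2 ⟨?_, ?_⟩⟩
    · intro a b c d
      exact hn₀ s j η l a b c c₀ (n : ℤ) d hg.1
    · intro a b c d
      exact hn₀ s j η l a b c c₀ (-(n : ℤ)) d hg.2

end Pool.Agent.Results.MP_6ea630_nt.MetricSequences
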