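import Pool.Agent.L7h16.KA.Sgn
import Pool.Agent.N760.IT.C

/-!
# The Kloosterman angles at `s` consecutive primes for ALL integers near the values of multiplicative functions and near the
members of almost all orbits of Euler's function

Let `f` be a positive multiplicative function of at most polynomial growth with `f p ≤ M p` for the large primes `p` and
different values at different large primes (`LM`), for example Euler's function or the sum of the divisors, let `G` have steps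
bounded below by a positive constant and growth at most `v ^ d` (`Expanding`), for example `G v = a v ^ d`, and let
`d (1 - θ) + κ < 1`. For all natural numbers `m ≤ N` up to `N / (log N) ^ A` exceptions (for all `A`), for ALL integers `n` with
`| |n| - G (f m) | ≤ (f m) ^ κ`, the angles of the Kloosterman sums `S(P(n), 1; p)` at `s` consecutive primes are distributed in
all boxes as expected from the finite fields, with square-root error, up to a power of `|n|`; and all patterns of signs occur.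
Moreover, there are `K(m)` tending to infinity such that for almost all `m` the same holds, for all `k ≤ K(m)`, near
`G (f (φ_k m))`, where `φ_k` is the `k`-th iterate of Euler's function. The values of such functions (and the more so the
iterates of Euler's function) form a thin set and are taken with large multiplicities, so this does not follow from the number
of the exceptional `n` alone; the passage is from the libraries `N733.TG` and `N760.IT`.

The definitions for the Kloosterman sums (`angle`, `boxCount`, `proportion`, `boxModel`, `signCount`) are those of the starting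
file `NonIntegralOrderValues`.
-/

set_option autoImplicit false

namespace Pool.Agent.Results.MP_6ea630_nt.MultiplicativeValues

open Finset Filter
open scoped Polynomial
open Pool.Agent.N733.TG (LM Expanding lm_totient lm_sigma expanding_pow keep_good_nat)
open Pool.Agent.N760.IT (orb lm_id orbit_good_nat)
open Pool.Agent.N826.IT.Orb (AlmostAll)
open Pool.Agent.Results.MP_6ea630_nt.NonIntegralOrderValues (boxCount boxModel signCount)

/-- For all `K ≤ |n| ^ θ` and all products of `s` intervals the number of the `k < K` for which the angles of `S(a, 1; p)` at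
the `s` primes with the indices `k, ..., k + s - 1` are in the intervals, for `a = P(n)`, differs from the expected number by
at most `C K ^ (1 / 2 + ε) (1 + log |n|) ^ (1 / 2)`. -/
def Boxes (s : ℕ) (ε θ C : ℝ) (P : ℤ[X]) (n : ℤ) : Prop :=
  ∀ K : ℕ, (K : ℝ) ≤ |(n : ℝ)| ^ θ → ∀ I : Fin s → Set ℝ, (∀ i, (I i).OrdConnected) →
    |(boxCount I K (P.eval n) : ℝ) - boxModel P I K| ≤ C * ((K : ℝ) ^ (1 / 2 + ε) * √(1 + Real.log |(n : ℝ)|))

/-- For all `(log |n|) ^ 2 ≤ K ≤ |n| ^ θ` every pattern of `s` signs occurs for the sums `S(a, 1; p)` at the `s` primes with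
the indices `k, ..., k + s - 1`, with sums of absolute value greater than `η p ^ (1 / 2)`, for at least
`((1 / 4 - η) ^ s - ε) K` of the `k < K`. -/
def Signs (s : ℕ) (η ε θ : ℝ) (n a : ℤ) : Prop :=
  ∀ K : ℕ, Real.log |(n : ℝ)| ^ 2 ≤ K → (K : ℝ) ≤ |(n : ℝ)| ^ θ → ∀ σ : Fin s → ℝ, (∀ i, σ i = 1 ∨ σ i = -1) →
    ((1 / 4 - η) ^ s - ε) * K ≤ signCount s σ η K a

/-- For all `f` and `G` as above with `d (1 - θ) + κ < 1`: (1) for all `A`, for large `N`, for all `m ≤ N` with at most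
`N / (log N) ^ A` exceptions all positive integers `n` with `|n - G (f m)| ≤ (f m) ^ κ` have the property `Q`; (2) there are
`K(m)` tending to infinity such that for all `m` outside a set of density zero, for all `k ≤ K(m)`, all positive integers `n`
with `|n - G v| ≤ v ^ κ`, `v = f (φ_k m)`, have the property `Q`. -/
def Everywhere (Q : ℕ → Prop) (θ : ℝ) : Prop :=
  ∀ f : ℕ → ℕ, LM f → ∀ (G : ℕ → ℝ) (d : ℝ), Expanding G d → ∀ κ : ℝ, 0 ≤ κ → d * (1 - θ) + κ < 1 →
    (∀ A : ℕ, ∃ N₀ : ℕ, ∀ N : ℕ, N₀ ≤ N →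
      ({m : ℕ | 1 ≤ m ∧ m ≤ N ∧ ¬ ∀ n : ℕ, 1 ≤ n → |(n : ℝ) - G (f m)| ≤ (f m : ℝ) ^ κ → Q n}.ncard : ℝ) ≤
        N / Real.log N ^ A) ∧
    ∃ K : ℕ → ℕ, Tendsto K atTop atTop ∧ AlmostAll (fun m => ∀ k ≤ K m, ∀ n : ℕ, 1 ≤ n →
      |(n : ℝ) - G (orb f k m)| ≤ (orb f k m : ℝ) ^ κ → Q n)

open Classical in
lemma everywhere_of (Q : ℕ → Prop) (θ : ℝ) (hθ : θ ≤ 1) (C : ℝ) (hC : 0 ≤ C)
    (h : ∀ X : ℕ, 1 ≤ X → (((Icc 1 X).filter (fun n : ℕ => ¬ Q n)).card : ℝ) ≤ C * (X : ℝ) ^ (1 - θ)) : Everywhere Q θ := by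
  intro f hf G d hG κ hκ hdκ
  have hcount : ∀ ε : ℝ, 0 < ε → ∃ C : ℝ, ∀ X : ℕ, 1 ≤ X →
      ({t : ℕ | 1 ≤ t ∧ t ≤ X ∧ True ∧ ¬ Q t}.ncard : ℝ) ≤ C * (X : ℝ) ^ ((1 - θ) + ε) := by
    intro ε hε
    refine ⟨C, fun X hX => ?_⟩
    have hX1 : (1 : ℝ) ≤ X := by exact_mod_cast hX
    have e : {t : ℕ | 1 ≤ t ∧ t ≤ X ∧ True ∧ ¬ Q t} = (((Icc 1 X).filter (fun n : ℕ => ¬ Q n) : Finset ℕ) : Set ℕ) := by
      ext t
      rw [coe_filter]
      constructor
      · rintro ⟨g1, g2, -, g3⟩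
        exact ⟨mem_Icc.2 ⟨g1, g2⟩, g3⟩
      · rintro ⟨g1, g3⟩
        rw [mem_Icc] at g1
        exact ⟨g1.1, g1.2, trivial, g3⟩
    rw [e, Set.ncard_coe_finset]
    refine (h X hX).trans ?_
    apply mul_le_mul_of_nonneg_left _ hC
    exact Real.rpow_le_rpow_of_exponent_le hX1 (by linarith)
  constructor
  · intro A
    obtain ⟨N₀, hN₀⟩ := keep_good_nat (fun _ => True) Q hf hG (by linarith : 0 ≤ 1 - θ) hκ hdκ hcount A
    refine ⟨N₀, fun N hN => le_trans (le_of_eq ?_) (hN₀ N hN)⟩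
    congr 2
    ext m
    simp only [Set.mem_ofPred_eq, true_imp_iff]
  · obtain ⟨K, hK, hK2⟩ := orbit_good_nat (fun _ => True) Q hf hG (by linarith : 0 ≤ 1 - θ) hκ hdκ hcount
    refine ⟨K, hK, ?_⟩
    simpa only [true_imp_iff] using hK2

/-- **Theorem.** Let `s ≥ 1`.

(1) For every `ε > 0` there are `θ` in `(0, 1 / 2]` and `C` such that for all polynomials `P ∈ ℤ[T]` the property of the boxes,
for `P(n)` and `P(-n)`, holds everywhere near the values of the multiplicative functions and near the members of almost all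
orbits of Euler's function (in the sense of `Everywhere`, for all windows with `d (1 - θ) + κ < 1`).

(2) There is `θ` in `(0, 1 / 2]` such that for `0 ≤ η ≤ 1 / 4`, `ε > 0` and integers `l ≠ 0`, with some `n₀`, for all integers
`c₀`, the property of the signs for `a = c₀ + l n` and `a = c₀ - l n`, for `n ≥ n₀`, holds in the same sense.

(3) The identity, Euler's function and the sum of the divisors satisfy `LM`; `a v ^ d` with `a > 0`, `d ≥ 1` is expanding. -/
theorem result (s : ℕ) (hs : 1 ≤ s) :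
    (∀ ε : ℝ, 0 < ε → ∃ θ C : ℝ, 0 < θ ∧ θ ≤ 1 / 2 ∧ 0 < C ∧ ∀ P : ℤ[X],
      Everywhere (fun n => Boxes s ε θ C P (n : ℤ) ∧ Boxes s ε θ C P (-(n : ℤ))) θ) ∧
    (∃ θ : ℝ, 0 < θ ∧ θ ≤ 1 / 2 ∧ ∀ η ε : ℝ, 0 ≤ η → η ≤ 1 / 4 → 0 < ε → ∀ l : ℤ, l ≠ 0 → ∃ n₀ : ℕ, ∀ c₀ : ℤ,
      Everywhere (fun n => n₀ ≤ n → Signs s η ε θ (n : ℤ) (c₀ + l * n) ∧ Signs s η ε θ (n : ℤ) (c₀ - l * n)) θ) ∧
    (LM (fun m => m) ∧ LM Nat.totient ∧ LM (fun m => ∑ d ∈ m.divisors, d)) ∧
    ∀ a d : ℝ, 0 < a → 1 ≤ d → Expanding (fun v => a * (v : ℝ) ^ d) d := by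
  classical
  refine ⟨?_, ?_, ⟨lm_id, lm_totient, lm_sigma⟩, fun a d ha hd => expanding_pow ha hd⟩
  · intro ε hε
    obtain ⟨θ, C, h1, h2, h3, H⟩ := Pool.Agent.L7h16.KA.all_int s hs ε hε
    refine ⟨θ, C, h1, h2, by linarith, fun P => everywhere_of _ θ (by linarith) (2 * C) (by linarith) (fun X hX => ?_)⟩
    exact le_trans (le_of_eq (by congr!)) (H P X hX)
  · obtain ⟨θ, C, h1, h2, h3, H⟩ := Pool.Agent.L7h16.KA.all_nat s hs (1 / 8) (by norm_num)
    refine ⟨θ, h1, h2, fun η ε hη hη1 hε l hl => ?_⟩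
    obtain ⟨N₁, hN₁⟩ := Pool.Agent.L7h16.KA.signs_of_good s hs θ C h3 η ε hη hη1 hε l hl
    obtain ⟨N₂, hN₂⟩ := Pool.Agent.L7h16.KA.signs_of_good s hs θ C h3 η ε hη hη1 hε (-l) (neg_ne_zero.2 hl)
    obtain ⟨n₀, hn₀⟩ := exists_nat_ge (max N₁ N₂)
    refine ⟨n₀, fun c₀ => everywhere_of _ θ (by linarith) (2 * C) (by linarith) (fun X hX => ?_)⟩
    have a1 := H (Polynomial.C c₀ + Polynomial.C l * Polynomial.X) X hX
    have a2 := H (Polynomial.C c₀ + Polynomial.C (-l) * Polynomial.X) X hX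
    have hsub : (Icc 1 X).filter (fun n : ℕ => ¬ (n₀ ≤ n → Signs s η ε θ (n : ℤ) (c₀ + l * n) ∧ Signs s η ε θ (n : ℤ) (c₀ - l * n))) ⊆
        (Icc 1 X).filter (fun n : ℕ => ¬ Pool.Agent.L7h16.KA.Good s (1 / 8) θ C (Polynomial.C c₀ + Polynomial.C l * Polynomial.X) n) ∪
        (Icc 1 X).filter (fun n : ℕ => ¬ Pool.Agent.L7h16.KA.Good s (1 / 8) θ C (Polynomial.C c₀ + Polynomial.C (-l) * Polynomial.X) n) := by
      intro n hn
      rw [mem_filter] at hn
      rw [mem_union, mem_filter, mem_filter]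
      by_contra hcon
      push Not at hcon
      have g1 := hcon.1 hn.1
      have g2 := hcon.2 hn.1
      apply hn.2
      intro hnn
      have habs : |(((n : ℕ) : ℤ) : ℝ)| = n := by
        rw [Int.cast_natCast, abs_of_nonneg (Nat.cast_nonneg _)]
      have h4 : max N₁ N₂ ≤ |(((n : ℕ) : ℤ) : ℝ)| := by
        rw [habs]
        exact hn₀.trans (by exact_mod_cast hnn)
      have s1 := hN₁ c₀ n ((le_max_left _ _).trans h4) g1
      have s2 := hN₂ c₀ n ((le_max_right _ _).trans h4) g2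
      refine ⟨s1, ?_⟩
      have e : c₀ - l * (n : ℤ) = c₀ + -l * n := by ring
      rw [e]
      exact s2
    have h4 := (card_le_card hsub).trans (card_union_le _ _)
    have h5 : (((Icc 1 X).filter (fun n : ℕ => ¬ (n₀ ≤ n → Signs s η ε θ (n : ℤ) (c₀ + l * n) ∧
        Signs s η ε θ (n : ℤ) (c₀ - l * n)))).card : ℝ) ≤
        (((Icc 1 X).filter (fun n : ℕ => ¬ Pool.Agent.L7h16.KA.Good s (1 / 8) θ C (Polynomial.C c₀ + Polynomial.C l * Polynomial.X) n)).card : ℝ) +
        (((Icc 1 X).filter (fun n : ℕ => ¬ Pool.Agent.L7h16.KA.Good s (1 / 8) θ C (Polynomial.C c₀ + Polynomial.C (-l) * Polynomial.X) n)).card : ℝ) := by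
      exact_mod_cast h4
    have h6 : (((Icc 1 X).filter (fun n : ℕ => ¬ (n₀ ≤ n → Signs s η ε θ (n : ℤ) (c₀ + l * n) ∧
        Signs s η ε θ (n : ℤ) (c₀ - l * n)))).card : ℝ) ≤ 2 * C * (X : ℝ) ^ (1 - θ) := by linarith
    exact le_trans (le_of_eq (by congr!)) h6

end Pool.Agent.Results.MP_6ea630_nt.MultiplicativeValues
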