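import Pool.Agent.L7h16.KA.Sgn
import Pool.Agent.N671.DA.Win

/-!
# The Kloosterman angles at `s` consecutive primes for ALL integers near functions of the denominators of good approximations

Let `α_1, …, α_m` be real numbers. We consider the natural numbers `q` with `‖q α_j - β_j‖ ≤ b q^(-τ)` for all `j`, `‖x‖` the
distance to the nearest integer; for `β = 0`, `b = 1`, `τ = 1 / m` these include the denominators of all best simultaneous
approximations (the denominators of the convergents for `m = 1`), a very sparse sequence. Let `G` be a function with steps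
bounded below by a positive constant and growth at most `v ^ d`, for example `a v ^ d`. For all `α` in `ℝ^m` outside a set of
Hausdorff dimension at most `(m + d (1 - θ) + κ) / (1 + τ)`, for all polynomials `P`, all `b` and all but finitely many such
`q`, for ALL integers `n` with `| |n| - G q | ≤ q ^ κ` the angles of the Kloosterman sums `S(P(n), 1; p)` at `s` consecutive
primes are distributed in all boxes as expected from the finite fields, with square-root error, up to a power of `|n|`; and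
all patterns of signs occur. For `τ = 1 / m` the bound for the dimension is less than `m` if `d (1 - θ) + κ < 1`; so the
statement holds for almost all `α`.

The definitions for the Kloosterman sums (`angle`, `boxCount`, `proportion`, `boxModel`, `signCount`) are those of the starting
file `NonIntegralOrderValues`; `Expanding` and `Solves` are those of `Pool.Agent.N671.DA`.
-/

set_option autoImplicit false

namespace Pool.Agent.Results.MP_6ea630_nt.SimultaneousApproximations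

open Finset
open scoped Polynomial
open Pool.Agent.N671.DA (Solves Expanding expanding_pow approx_good_nat)
open Pool.Agent.Results.MP_6ea630_nt.NonIntegralOrderValues (boxCount boxModel signCount)

/-- For all `K ≤ |n| ^ θ` and all products of `s` intervals the number of the `k < K` for which the angles of `S(a, 1; p)` at
the `s` primes with the indices `k, ..., k + s - 1` are in the intervals, for `a = P(n)`, differs from the expected number by
at most `C K ^ (1 / 2 + ε) (1 + log |n|) ^ (1 / 2)`. -/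
def Boxes (s : ℕ) (ε θ C : ℝ) (P : ℤ[X]) (n : ℤ) : Prop :=
  ∀ K : ℕ, (K : ℝ) ≤ |(n : ℝ)| ^ θ → ∀ I : Fin s → Set ℝ, (∀ i, (I i).OrdConnected) →
    |(boxCount I K (P.eval n) : ℝ) - boxModel P I K| ≤ C * ((K : ℝ) ^ (1 / 2 + ε) * √(1 + Real.log |(n : ℝ)|))

/-- For all `(log |n|) ^ 2 ≤ K ≤ |n| ^ θ` every pattern of `s` signs occurs for the sums `S(a, 1; p)` at the `s` primes with
the indices `k, ..., k + s - 1`, with sums of absolute value greater than `η p ^ (1 / 2)`, for at least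
`((1 / 4 - η) ^ s - ε) K` of the `k < K`. -/
def Signs (s : ℕ) (η ε θ : ℝ) (n a : ℤ) : Prop :=
  ∀ K : ℕ, Real.log |(n : ℝ)| ^ 2 ≤ K → (K : ℝ) ≤ |(n : ℝ)| ^ θ → ∀ σ : Fin s → ℝ, (∀ i, σ i = 1 ∨ σ i = -1) →
    ((1 / 4 - η) ^ s - ε) * K ≤ signCount s σ η K a

lemma countable_poly : Countable ℤ[X] := by
  rw [← Cardinal.mk_le_aleph0_iff]
  exact (Polynomial.cardinalMk_le_max).trans (max_le Cardinal.mk_le_aleph0 le_rfl)

lemma core (s : ℕ) (hs : 1 ≤ s) (ε : ℝ) (hε : 0 < ε) : ∃ θ C : ℝ, 0 < θ ∧ θ ≤ 1 / 2 ∧ 1 ≤ C ∧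
    ∀ (G : ℕ → ℝ) (d : ℝ), Expanding G d → ∀ κ : ℝ, 0 ≤ κ → κ ≤ 1 → ∀ (m : ℕ) (β : Fin m → ℝ) (τ : ℝ), 0 < τ →
      ∃ E : Set (Fin m → ℝ), dimH E ≤ ENNReal.ofReal ((m + (d * (1 - θ) + κ)) / (1 + τ)) ∧
        ∀ α, α ∉ E → ∀ (P : ℤ[X]) (b : ℝ), ∃ Q : ℕ, ∀ q : ℕ, Q ≤ q → Solves α β q (b * (q : ℝ) ^ (-τ)) →
          ∀ n : ℤ, n ≠ 0 → |(|(n : ℝ)|) - G q| ≤ (q : ℝ) ^ κ → Boxes s ε θ C P n := by
  classical
  obtain ⟨θ, C, h1, h2, h3, H⟩ := Pool.Agent.L7h16.KA.all_int s hs ε hε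
  refine ⟨θ, C, h1, h2, h3, fun G d hG κ hκ hκ1 m β τ hτ => ?_⟩
  have key : ∀ P : ℤ[X], ∃ E : Set (Fin m → ℝ),
      dimH E ≤ ENNReal.ofReal ((m + (d * (1 - θ) + κ)) / (1 + τ)) ∧
      ∀ α, α ∉ E → ∀ b : ℝ, ∃ Q : ℕ, ∀ q : ℕ, Q ≤ q → Solves α β q (b * (q : ℝ) ^ (-τ)) →
        ∀ n : ℕ, 1 ≤ n → True → |(n : ℝ) - G q| ≤ (q : ℝ) ^ κ → (Boxes s ε θ C P (n : ℤ) ∧ Boxes s ε θ C P (-(n : ℤ))) := by
    intro P
    refine approx_good_nat (fun _ => True) (fun n => Boxes s ε θ C P (n : ℤ) ∧ Boxes s ε θ C P (-(n : ℤ))) hG (s := 1 - θ) (κ := κ)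
      (by linarith) hκ hκ1 ?_ β hτ
    intro ε' hε'
    refine ⟨2 * C, fun X hX => ?_⟩
    have hX1 : (1 : ℝ) ≤ X := by exact_mod_cast hX
    have h4 := H P X hX
    have e : {t : ℕ | 1 ≤ t ∧ t ≤ X ∧ True ∧ ¬ (Boxes s ε θ C P (t : ℤ) ∧ Boxes s ε θ C P (-(t : ℤ)))} =
        (((Icc 1 X).filter (fun n : ℕ => ¬ (Pool.Agent.L7h16.KA.Good s ε θ C P (n : ℤ) ∧
          Pool.Agent.L7h16.KA.Good s ε θ C P (-(n : ℤ)))) : Finset ℕ) : Set ℕ) := by
      ext t
      rw [coe_filter]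
      constructor
      · rintro ⟨g1, g2, -, g3⟩
        exact ⟨mem_Icc.2 ⟨g1, g2⟩, g3⟩
      · rintro ⟨g1, g3⟩
        rw [mem_Icc] at g1
        exact ⟨g1.1, g1.2, trivial, g3⟩
    rw [e, Set.ncard_coe_finset]
    refine h4.trans ?_
    apply mul_le_mul_of_nonneg_left _ (by linarith)
    exact Real.rpow_le_rpow_of_exponent_le hX1 (by linarith)
  choose E hE hE2 using key
  have := countable_poly
  refine ⟨⋃ P, E P, ?_, fun α hα P b => ?_⟩
  · rw [dimH_iUnion]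
    exact iSup_le hE
  · obtain ⟨Q, hQ⟩ := hE2 P α (fun h => hα (Set.mem_iUnion.2 ⟨P, h⟩)) b
    refine ⟨Q, fun q hq h4 n hn h5 => ?_⟩
    have hn1 : 1 ≤ n.natAbs := Int.natAbs_pos.2 hn
    have habs : ((n.natAbs : ℕ) : ℝ) = |(n : ℝ)| := by
      rw [← Int.cast_natCast, Int.natCast_natAbs, Int.cast_abs]
    have h6 := hQ q hq h4 n.natAbs hn1 trivial (by rw [habs]; exact h5)
    rcases Int.natAbs_eq n with h | h
    · rw [h]
      exact h6.1
    · rw [h]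
      exact h6.2

/-- **Theorem.** Let `s ≥ 1`.

(1) For every `ε > 0` there are `θ` in `(0, 1 / 2]` and `C` with the following property. Let `G` have steps `≥ a > 0` and
growth at most `v ^ d`, `0 ≤ κ ≤ 1`, `β` in `ℝ^m` and `τ > 0`. For all `α` in `ℝ^m` outside ONE set of Hausdorff dimension at
most `(m + d (1 - θ) + κ) / (1 + τ)`, for all polynomials `P` and all `b`, for all large `q` with `‖q α_j - β_j‖ ≤ b q^(-τ)`
for all `j`, ALL integers `n ≠ 0` with `| |n| - G q | ≤ q ^ κ` have the property of the boxes, for `P(n)`.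

(2) There is `θ` in `(0, 1 / 2]` such that, in the same situation with `κ < 1`, for all `α` outside ONE set of Hausdorff dimension at most
`(m + d (1 - θ) + κ) / (1 + τ)`, for all `0 ≤ η ≤ 1 / 4`, `ε > 0`, all integers `c₀`, `l ≠ 0` and all `b`, for all large such
`q` ALL integers `n ≠ 0` with `| |n| - G q | ≤ q ^ κ` have the property of the signs, for `a = c₀ + l n`.

(3) The functions `a v ^ d` with `a > 0`, `d ≥ 1` are examples of `G`. -/
theorem result (s : ℕ) (hs : 1 ≤ s) :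
    (∀ ε : ℝ, 0 < ε → ∃ θ C : ℝ, 0 < θ ∧ θ ≤ 1 / 2 ∧ 0 < C ∧
      ∀ (G : ℕ → ℝ) (d : ℝ), Expanding G d → ∀ κ : ℝ, 0 ≤ κ → κ ≤ 1 → ∀ (m : ℕ) (β : Fin m → ℝ) (τ : ℝ), 0 < τ →
      ∃ E : Set (Fin m → ℝ), dimH E ≤ ENNReal.ofReal ((m + (d * (1 - θ) + κ)) / (1 + τ)) ∧
        ∀ α, α ∉ E → ∀ (P : ℤ[X]) (b : ℝ), ∃ Q : ℕ, ∀ q : ℕ, Q ≤ q → Solves α β q (b * (q : ℝ) ^ (-τ)) →
          ∀ n : ℤ, n ≠ 0 → |(|(n : ℝ)|) - G q| ≤ (q : ℝ) ^ κ → Boxes s ε θ C P n) ∧
    (∃ θ : ℝ, 0 < θ ∧ θ ≤ 1 / 2 ∧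
      ∀ (G : ℕ → ℝ) (d : ℝ), Expanding G d → ∀ κ : ℝ, 0 ≤ κ → κ < 1 → ∀ (m : ℕ) (β : Fin m → ℝ) (τ : ℝ), 0 < τ →
      ∃ E : Set (Fin m → ℝ), dimH E ≤ ENNReal.ofReal ((m + (d * (1 - θ) + κ)) / (1 + τ)) ∧
        ∀ α, α ∉ E → ∀ η ε : ℝ, 0 ≤ η → η ≤ 1 / 4 → 0 < ε → ∀ l c₀ : ℤ, l ≠ 0 → ∀ b : ℝ, ∃ Q : ℕ, ∀ q : ℕ, Q ≤ q →
          Solves α β q (b * (q : ℝ) ^ (-τ)) →
          ∀ n : ℤ, n ≠ 0 → |(|(n : ℝ)|) - G q| ≤ (q : ℝ) ^ κ → Signs s η ε θ n (c₀ + l * n)) ∧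
    ∀ a d : ℝ, 0 < a → 1 ≤ d → Expanding (fun v => a * (v : ℝ) ^ d) d := by
  refine ⟨?_, ?_, fun a d ha hd => expanding_pow ha hd⟩
  · intro ε hε
    obtain ⟨θ, C, h1, h2, h3, H⟩ := core s hs ε hε
    exact ⟨θ, C, h1, h2, by linarith, H⟩
  · obtain ⟨θ, C, h1, h2, h3, H⟩ := core s hs (1 / 8) (by norm_num)
    refine ⟨θ, h1, h2, fun G d hG κ hκ hκ1 m β τ hτ => ?_⟩
    obtain ⟨E, hE, hE2⟩ := H G d hG κ hκ hκ1.le m β τ hτ
    refine ⟨E, hE, fun α hα η ε hη hη1 hε l c₀ hl b => ?_⟩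
    obtain ⟨N₀, hN₀⟩ := Pool.Agent.L7h16.KA.signs_of_good s hs θ C h3 η ε hη hη1 hε l hl
    obtain ⟨Q, hQ⟩ := hE2 α hα (Polynomial.C c₀ + Polynomial.C l * Polynomial.X) b
    -- only finitely many `n` are small
    obtain ⟨a, ha, hstep⟩ := hG.step
    have t1 : Filter.Tendsto (fun q : ℕ => (q : ℝ) ^ (1 - κ)) Filter.atTop Filter.atTop :=
      (tendsto_rpow_atTop (by linarith)).comp tendsto_natCast_atTop_atTop
    have t2 : Filter.Tendsto (fun q : ℕ => a / 2 * (q : ℝ)) Filter.atTop Filter.atTop :=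
      Filter.Tendsto.const_mul_atTop (by positivity) tendsto_natCast_atTop_atTop
    obtain ⟨q₀, hq₀⟩ := Filter.eventually_atTop.1 ((t1.eventually_ge_atTop (2 / a)).and (t2.eventually_ge_atTop (N₀ + a - G 1)))
    refine ⟨Q + q₀ + 1, fun q hq h4 n hn h5 => ?_⟩
    obtain ⟨w1, w2⟩ := hq₀ q (by omega)
    have hB := hQ q (by omega) h4 n hn h5
    have hq0 : (0 : ℝ) < q := by exact_mod_cast (by omega : 0 < q)
    have h6 : (q : ℝ) ^ κ ≤ a / 2 * q := by
      have e : (q : ℝ) = (q : ℝ) ^ κ * (q : ℝ) ^ (1 - κ) := by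
        rw [← Real.rpow_add hq0]
        norm_num
      have h7 : 0 < (q : ℝ) ^ κ := Real.rpow_pos_of_pos hq0 _
      calc (q : ℝ) ^ κ = a / 2 * ((q : ℝ) ^ κ * (2 / a)) := by field_simp
        _ ≤ a / 2 * ((q : ℝ) ^ κ * (q : ℝ) ^ (1 - κ)) := by
            apply mul_le_mul_of_nonneg_left _ (by positivity)
            exact mul_le_mul_of_nonneg_left w1 h7.le
        _ = a / 2 * q := by rw [← e]
    have h7 := Pool.Agent.N671.DA.step_sum hstep (le_refl 1) (by omega : 1 ≤ q)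
    rw [Nat.cast_sub (by omega : 1 ≤ q), Nat.cast_one] at h7
    have h8 := (abs_le.1 h5).1
    apply hN₀ c₀ n _ hB
    linarith

end Pool.Agent.Results.MP_6ea630_nt.SimultaneousApproximations
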